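import Pool.Agent.helper73.TC.XDefs

/-!
# `Sym^3 P^1 = P^3`: products of three linear forms (helper17)

Used for `MP_a50e43_gt` (tight polyhedral embedding of complex projective 3-space).
-/

set_option autoImplicit false
open Topology
open scoped LinearAlgebra.Projectivization

noncomputable section
namespace Pool.Agent.helper73.TC
namespace Sym3

/-! ### Products of forms on the level of coefficients -/

/-- product of two linear forms -/
def m1 (w e : Fin 2 → ℂ) : Fin 3 → ℂ := ![w 0 * e 0, w 0 * e 1 + w 1 * e 0, w 1 * e 1]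

/-- product of a linear and a quadratic form -/
def m2 (w : Fin 2 → ℂ) (d : Fin 3 → ℂ) : Fin 4 → ℂ :=
  ![w 0 * d 0, w 0 * d 1 + w 1 * d 0, w 0 * d 2 + w 1 * d 1, w 1 * d 2]

/-- the product of three linear forms -/
def cf (v : Fin 3 → Fin 2 → ℂ) : Fin 4 → ℂ := m2 (v 0) (m1 (v 1) (v 2))

theorem ne_zero_iff (w : Fin 2 → ℂ) : w ≠ 0 ↔ w 0 ≠ 0 ∨ w 1 ≠ 0 := by
  constructor
  · intro h
    by_contra hc
    push Not at hc
    apply h
    funext i
    fin_cases i
    · exact hc.1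
    · exact hc.2
  · rintro (h | h) h'
    · exact h (by rw [h']; rfl)
    · exact h (by rw [h']; rfl)

theorem m1_inj {w e : Fin 2 → ℂ} (hw : w ≠ 0) (h : m1 w e = 0) : e = 0 := by
  have h0 : w 0 * e 0 = 0 := congrFun h 0
  have h1 : w 0 * e 1 + w 1 * e 0 = 0 := congrFun h 1
  have h2 : w 1 * e 1 = 0 := congrFun h 2
  rcases (ne_zero_iff w).1 hw with hw | hw
  · have e0 : e 0 = 0 := (mul_eq_zero.1 h0).resolve_left hw
    rw [e0, mul_zero, add_zero] at h1
    have e1 : e 1 = 0 := (mul_eq_zero.1 h1).resolve_left hw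
    funext i
    fin_cases i
    · exact e0
    · exact e1
  · have e1 : e 1 = 0 := (mul_eq_zero.1 h2).resolve_left hw
    rw [e1, mul_zero, zero_add] at h1
    have e0 : e 0 = 0 := (mul_eq_zero.1 h1).resolve_left hw
    funext i
    fin_cases i
    · exact e0
    · exact e1

theorem m2_inj {w : Fin 2 → ℂ} {d : Fin 3 → ℂ} (hw : w ≠ 0) (h : m2 w d = 0) : d = 0 := by
  have h0 : w 0 * d 0 = 0 := congrFun h 0
  have h1 : w 0 * d 1 + w 1 * d 0 = 0 := congrFun h 1
  have h2 : w 0 * d 2 + w 1 * d 1 = 0 := congrFun h 2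
  have h3 : w 1 * d 2 = 0 := congrFun h 3
  have key : d 0 = 0 ∧ d 1 = 0 ∧ d 2 = 0 := by
    rcases (ne_zero_iff w).1 hw with hw | hw
    · have e0 : d 0 = 0 := (mul_eq_zero.1 h0).resolve_left hw
      rw [e0, mul_zero, add_zero] at h1
      have e1 : d 1 = 0 := (mul_eq_zero.1 h1).resolve_left hw
      rw [e1, mul_zero, add_zero] at h2
      exact ⟨e0, e1, (mul_eq_zero.1 h2).resolve_left hw⟩
    · have e2 : d 2 = 0 := (mul_eq_zero.1 h3).resolve_left hw
      rw [e2, mul_zero, zero_add] at h2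
      have e1 : d 1 = 0 := (mul_eq_zero.1 h2).resolve_left hw
      rw [e1, mul_zero, zero_add] at h1
      exact ⟨(mul_eq_zero.1 h1).resolve_left hw, e1, e2⟩
  funext i
  fin_cases i
  · exact key.1
  · exact key.2.1
  · exact key.2.2

theorem m1_comm (w e : Fin 2 → ℂ) : m1 w e = m1 e w := by
  funext i
  fin_cases i <;> simp [m1] <;> ring

theorem m2_swap (w p q : Fin 2 → ℂ) : m2 w (m1 p q) = m2 p (m1 w q) := by
  funext i
  fin_cases i <;> simp [m1, m2] <;> ring

theorem m1_smul_left (c : ℂ) (w e : Fin 2 → ℂ) : m1 (c • w) e = c • m1 w e := by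
  funext i
  fin_cases i <;> simp [m1] <;> ring

theorem m1_smul_right (c : ℂ) (w e : Fin 2 → ℂ) : m1 w (c • e) = c • m1 w e := by
  funext i
  fin_cases i <;> simp [m1] <;> ring

theorem m2_smul_left (c : ℂ) (w : Fin 2 → ℂ) (d : Fin 3 → ℂ) : m2 (c • w) d = c • m2 w d := by
  funext i
  fin_cases i <;> simp [m2] <;> ring

theorem m2_smul_right (c : ℂ) (w : Fin 2 → ℂ) (d : Fin 3 → ℂ) : m2 w (c • d) = c • m2 w d := by
  funext i
  fin_cases i <;> simp [m2] <;> ring

theorem m1_sub (w e e' : Fin 2 → ℂ) : m1 w (e - e') = m1 w e - m1 w e' := by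
  funext i
  fin_cases i <;> simp [m1] <;> ring

theorem m2_sub (w : Fin 2 → ℂ) (d d' : Fin 3 → ℂ) : m2 w (d - d') = m2 w d - m2 w d' := by
  funext i
  fin_cases i <;> simp [m2] <;> ring

theorem m1_ne {w e : Fin 2 → ℂ} (hw : w ≠ 0) (he : e ≠ 0) : m1 w e ≠ 0 :=
  fun h => he (m1_inj hw h)

theorem cf_ne {v : Fin 3 → Fin 2 → ℂ} (hv : ∀ i, v i ≠ 0) : cf v ≠ 0 :=
  fun h => m1_ne (hv 1) (hv 2) (m2_inj (hv 0) h)

/-- the value of a linear form -/
def dot (w : Fin 2 → ℂ) (x y : ℂ) : ℂ := w 0 * x + w 1 * y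

theorem ev1 (p q : Fin 2 → ℂ) (x y : ℂ) :
    (m1 p q) 0 * x ^ 2 + (m1 p q) 1 * (x * y) + (m1 p q) 2 * y ^ 2 = dot p x y * dot q x y := by
  simp [m1, dot]
  ring

theorem ev2 (w p q : Fin 2 → ℂ) (x y : ℂ) :
    (m2 w (m1 p q)) 0 * x ^ 3 + (m2 w (m1 p q)) 1 * (x ^ 2 * y) + (m2 w (m1 p q)) 2 * (x * y ^ 2) +
      (m2 w (m1 p q)) 3 * y ^ 3 = dot w x y * dot p x y * dot q x y := by
  simp [m1, m2, dot]
  ring

/-- proportional vectors -/
def Par (w w' : Fin 2 → ℂ) : Prop := ∃ c : ℂ, c ≠ 0 ∧ w' = c • w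

theorem par_of_dot {w w' : Fin 2 → ℂ} (hw : w ≠ 0) (hw' : w' ≠ 0)
    (h : dot w (w' 1) (-w' 0) = 0) : Par w w' := by
  have h' : w' 0 * w 1 = w' 1 * w 0 := by
    simp only [dot] at h
    linear_combination -h
  have key : ∃ c : ℂ, w' = c • w := by
    rcases (ne_zero_iff w).1 hw with h0 | h1
    · refine ⟨w' 0 / w 0, ?_⟩
      funext i
      fin_cases i
      · simp only [Fin.zero_eta, Pi.smul_apply, smul_eq_mul]
        field_simp
      · simp only [Fin.mk_one, Pi.smul_apply, smul_eq_mul]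
        field_simp
        linear_combination -h'
    · refine ⟨w' 1 / w 1, ?_⟩
      funext i
      fin_cases i
      · simp only [Fin.zero_eta, Pi.smul_apply, smul_eq_mul]
        field_simp
        linear_combination h'
      · simp only [Fin.mk_one, Pi.smul_apply, smul_eq_mul]
        field_simp
  obtain ⟨c, hc⟩ := key
  refine ⟨c, ?_, hc⟩
  rintro rfl
  exact hw' (by rw [hc, zero_smul])

theorem two {p q p' q' : Fin 2 → ℂ} (hp : p ≠ 0) (hq : q ≠ 0) (hp' : p' ≠ 0) {l : ℂ}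
    (hl : l ≠ 0) (h : m1 p' q' = l • m1 p q) :
    (Par p p' ∧ Par q q') ∨ (Par q p' ∧ Par p q') := by
  have key : ∀ p q : Fin 2 → ℂ, p ≠ 0 → m1 p' q' = l • m1 p q → Par p p' → Par q q' := by
    rintro p q hp h ⟨c, hc, rfl⟩
    rw [m1_smul_left, ← m1_smul_right, ← m1_smul_right] at h
    have h1 : m1 p (c • q' - l • q) = 0 := by rw [m1_sub, h, sub_self]
    have h2 := m1_inj hp h1
    refine ⟨c⁻¹ * l, mul_ne_zero (inv_ne_zero hc) hl, ?_⟩
    rw [mul_smul, ← sub_eq_zero.1 h2, smul_smul, inv_mul_cancel₀ hc, one_smul]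
  have h0 := ev1 p' q' (p' 1) (-p' 0)
  have h1 := ev1 p q (p' 1) (-p' 0)
  have h2 : dot p' (p' 1) (-p' 0) = 0 := by simp only [dot]; ring
  rw [h2, zero_mul, h] at h0
  have h3 : l * (dot p (p' 1) (-p' 0) * dot q (p' 1) (-p' 0)) = 0 := by
    rw [← h1, ← h0]
    simp only [Pi.smul_apply, smul_eq_mul]
    ring
  rcases mul_eq_zero.1 ((mul_eq_zero.1 h3).resolve_left hl) with h4 | h4
  · have h5 := par_of_dot hp hp' h4
    exact Or.inl ⟨h5, key p q hp h h5⟩
  · have h5 := par_of_dot hq hp' h4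
    exact Or.inr ⟨h5, key q p hq (by rw [h, m1_comm]) h5⟩

theorem three {v v' : Fin 3 → Fin 2 → ℂ} (hv : ∀ i, v i ≠ 0) (hv' : ∀ i, v' i ≠ 0) {l : ℂ}
    (hl : l ≠ 0) (h : cf v' = l • cf v) :
    ∃ g : Equiv.Perm (Fin 3), ∀ i, Par (v (g i)) (v' i) := by
  have key : ∀ w p q : Fin 2 → ℂ, w ≠ 0 → p ≠ 0 → q ≠ 0 → cf v' = l • m2 w (m1 p q) →
      Par w (v' 0) → (Par p (v' 1) ∧ Par q (v' 2)) ∨ (Par q (v' 1) ∧ Par p (v' 2)) := by
    intro w p q hw hp hq h hpar
    obtain ⟨c, hc, hc'⟩ := hpar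
    unfold cf at h
    rw [hc', m2_smul_left, ← m2_smul_right, ← m2_smul_right] at h
    have h1 : m2 w (c • m1 (v' 1) (v' 2) - l • m1 p q) = 0 := by rw [m2_sub, h, sub_self]
    have h2 := m2_inj hw h1
    refine two hp hq (hv' 1) (l := c⁻¹ * l) (mul_ne_zero (inv_ne_zero hc) hl) ?_
    rw [mul_smul, ← sub_eq_zero.1 h2, smul_smul, inv_mul_cancel₀ hc, one_smul]
  have h0 := ev2 (v' 0) (v' 1) (v' 2) (v' 0 1) (-v' 0 0)
  have h1 := ev2 (v 0) (v 1) (v 2) (v' 0 1) (-v' 0 0)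
  have h2 : dot (v' 0) (v' 0 1) (-v' 0 0) = 0 := by simp only [dot]; ring
  have hcf : m2 (v' 0) (m1 (v' 1) (v' 2)) = l • m2 (v 0) (m1 (v 1) (v 2)) := h
  rw [h2, zero_mul, zero_mul, hcf] at h0
  have h3 : l * (dot (v 0) (v' 0 1) (-v' 0 0) * dot (v 1) (v' 0 1) (-v' 0 0) *
      dot (v 2) (v' 0 1) (-v' 0 0)) = 0 := by
    rw [← h1, ← h0]
    simp only [Pi.smul_apply, smul_eq_mul]
    ring
  have h4 := (mul_eq_zero.1 h3).resolve_left hl
  rcases mul_eq_zero.1 h4 with h5 | h5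
  · rcases mul_eq_zero.1 h5 with h6 | h6
    · have h7 := par_of_dot (hv 0) (hv' 0) h6
      rcases key (v 0) (v 1) (v 2) (hv 0) (hv 1) (hv 2) h h7 with ⟨a, b⟩ | ⟨a, b⟩
      · refine ⟨1, fun i => ?_⟩
        fin_cases i
        · exact h7
        · exact a
        · exact b
      · refine ⟨Equiv.swap 1 2, fun i => ?_⟩
        fin_cases i
        · exact h7
        · exact a
        · exact b
    · have h7 := par_of_dot (hv 1) (hv' 0) h6
      rcases key (v 1) (v 0) (v 2) (hv 1) (hv 0) (hv 2) (by rw [h, cf, m2_swap]) h7 with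
        ⟨a, b⟩ | ⟨a, b⟩
      · refine ⟨Equiv.swap 0 1, fun i => ?_⟩
        fin_cases i
        · exact h7
        · exact a
        · exact b
      · refine ⟨Equiv.swap 0 1 * Equiv.swap 1 2, fun i => ?_⟩
        fin_cases i
        · exact h7
        · exact a
        · exact b
  · have h7 := par_of_dot (hv 2) (hv' 0) h5
    rcases key (v 2) (v 0) (v 1) (hv 2) (hv 0) (hv 1)
      (by rw [h, cf, m1_comm (v 1), m2_swap]) h7 with ⟨a, b⟩ | ⟨a, b⟩
    · refine ⟨Equiv.swap 0 2 * Equiv.swap 1 2, fun i => ?_⟩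
      fin_cases i
      · exact h7
      · exact a
      · exact b
    · refine ⟨Equiv.swap 0 2, fun i => ?_⟩
      fin_cases i
      · exact h7
      · exact a
      · exact b

theorem cf_perm (v : Fin 3 → Fin 2 → ℂ) (g : Equiv.Perm (Fin 3)) :
    cf (fun i => v (g i)) = cf v := by
  have key : ∀ a b c : Fin 3, a ≠ b → b ≠ c → a ≠ c →
      m2 (v a) (m1 (v b) (v c)) = m2 (v 0) (m1 (v 1) (v 2)) := by
    intro a b c hab hbc hac
    fin_cases a <;> fin_cases b <;> fin_cases c <;>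
      first
      | exact absurd rfl hab
      | exact absurd rfl hbc
      | exact absurd rfl hac
      | (funext i
         fin_cases i <;> simp [m1, m2] <;> first | ring1 | (left; ring1))
  exact key (g 0) (g 1) (g 2) (fun h => by simpa using g.injective h)
    (fun h => by simpa using g.injective h) (fun h => by simpa using g.injective h)

theorem cf_smul (a : Fin 3 → ℂ) (v : Fin 3 → Fin 2 → ℂ) :
    cf (fun i => a i • v i) = (a 0 * a 1 * a 2) • cf v := by
  unfold cf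
  rw [m1_smul_left, m1_smul_right, m2_smul_left, m2_smul_right, m2_smul_right, smul_smul,
    smul_smul]

theorem continuous_cf : Continuous cf := by
  refine continuous_pi fun i => ?_
  fin_cases i <;> simp only [cf, m2, m1] <;> simp <;> fun_prop

/-! ### Factorization -/

theorem fac2 (c : Fin 4 → ℂ) : ∃ w : Fin 2 → ℂ, w ≠ 0 ∧ ∃ d, c = m2 w d := by
  by_cases h3 : c 3 = 0
  · refine ⟨![1, 0], (ne_zero_iff _).2 (Or.inl (by simp)), ![c 0, c 1, c 2], ?_⟩
    funext i
    fin_cases i <;> simp [m2, h3]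
  · obtain ⟨r, hr⟩ := IsAlgClosed.exists_root
      (Polynomial.C (c 3) * Polynomial.X ^ 3 + Polynomial.C (c 2) * Polynomial.X ^ 2 +
        Polynomial.C (c 1) * Polynomial.X + Polynomial.C (c 0))
      (by rw [Polynomial.degree_cubic h3]; decide)
    simp only [Polynomial.IsRoot.def, Polynomial.eval_add, Polynomial.eval_mul,
      Polynomial.eval_C, Polynomial.eval_pow, Polynomial.eval_X] at hr
    refine ⟨![-r, 1], (ne_zero_iff _).2 (Or.inr (by simp)),
      ![c 1 + r * (c 2 + r * c 3), c 2 + r * c 3, c 3], ?_⟩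
    funext i
    fin_cases i
    · simp [m2]
      linear_combination hr
    · simp [m2]
    · simp [m2]
    · simp [m2]

theorem fac1 (d : Fin 3 → ℂ) : ∃ w : Fin 2 → ℂ, w ≠ 0 ∧ ∃ e, d = m1 w e := by
  by_cases h2 : d 2 = 0
  · refine ⟨![1, 0], (ne_zero_iff _).2 (Or.inl (by simp)), ![d 0, d 1], ?_⟩
    funext i
    fin_cases i <;> simp [m1, h2]
  · obtain ⟨r, hr⟩ := IsAlgClosed.exists_root
      (Polynomial.C (d 2) * Polynomial.X ^ 2 + Polynomial.C (d 1) * Polynomial.X +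
        Polynomial.C (d 0))
      (by rw [Polynomial.degree_quadratic h2]; decide)
    simp only [Polynomial.IsRoot.def, Polynomial.eval_add, Polynomial.eval_mul,
      Polynomial.eval_C, Polynomial.eval_pow, Polynomial.eval_X] at hr
    refine ⟨![-r, 1], (ne_zero_iff _).2 (Or.inr (by simp)), ![d 1 + r * d 2, d 2], ?_⟩
    funext i
    fin_cases i
    · simp [m1]
      linear_combination hr
    · simp [m1]
    · simp [m1]

theorem fac (c : Fin 4 → ℂ) (hc : c ≠ 0) :
    ∃ v : Fin 3 → Fin 2 → ℂ, (∀ i, v i ≠ 0) ∧ c = cf v := by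
  obtain ⟨w, hw, d, hd⟩ := fac2 c
  obtain ⟨w', hw', e, he⟩ := fac1 d
  have hn : e ≠ 0 := by
    rintro rfl
    apply hc
    rw [hd, he]
    funext i
    fin_cases i <;> simp [m1, m2]
  refine ⟨![w, w', e], fun i => ?_, ?_⟩
  · fin_cases i
    · exact hw
    · exact hw'
    · exact hn
  · rw [hd, he]
    rfl

/-! ### Topology -/

/-- the projection onto projective space -/
def prj (n : ℕ) : {v : Fin (n + 1) → ℂ // v ≠ 0} → CP n := Projectivization.mk' ℂ

theorem prj_eq (n : ℕ) (v w : {v : Fin (n + 1) → ℂ // v ≠ 0}) :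
    prj n v = prj n w ↔ ∃ a : ℂˣ, a • w.1 = v.1 :=
  Projectivization.mk_eq_mk_iff ℂ v.1 w.1 v.2 w.2

theorem prj_continuous (n : ℕ) : Continuous (prj n) :=
  continuous_quotient_mk'

theorem prj_surjective (n : ℕ) : Function.Surjective (prj n) :=
  Quotient.mk''_surjective

theorem prj_open (n : ℕ) : IsOpenMap (prj n) := by
  intro U hU
  have hq : IsQuotientMap (prj n) := isQuotientMap_quotient_mk'
  rw [← hq.isOpen_preimage]
  have h : prj n ⁻¹' (prj n '' U) = ⋃ a : ℂˣ, {v | (⟨a • v.1, by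
      rw [Units.smul_def]
      exact smul_ne_zero a.ne_zero v.2⟩ : {v : Fin (n + 1) → ℂ // v ≠ 0}) ∈ U} := by
    ext v
    simp only [Set.mem_preimage, Set.mem_image, Set.mem_iUnion, Set.mem_ofPred_eq]
    constructor
    · rintro ⟨w, hw, hwv⟩
      obtain ⟨a, ha⟩ := (prj_eq n w v).1 hwv
      refine ⟨a, ?_⟩
      have : (⟨a • v.1, by rw [ha]; exact w.2⟩ : {v : Fin (n + 1) → ℂ // v ≠ 0}) = w :=
        Subtype.ext ha
      rw [this]
      exact hw
    · rintro ⟨a, ha⟩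
      refine ⟨_, ha, ?_⟩
      rw [prj_eq]
      exact ⟨a, rfl⟩
  rw [h]
  refine isOpen_iUnion fun a => ?_
  refine hU.preimage (Continuous.subtype_mk ?_ _)
  exact (continuous_const_smul (a : ℂ)).comp continuous_subtype_val

theorem prj_quot (n : ℕ) : IsOpenQuotientMap (prj n) :=
  ⟨prj_surjective n, prj_continuous n, prj_open n⟩

/-- the map -/
def F (z : Fin 3 → CP 1) : CP 3 :=
  Projectivization.mk ℂ (cf fun i => (z i).rep) (cf_ne fun i => (z i).rep_nonzero)

theorem F_prj (v : Fin 3 → {v : Fin 2 → ℂ // v ≠ 0}) :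
    F (fun i => prj 1 (v i)) = prj 3 ⟨cf fun i => (v i).1, cf_ne fun i => (v i).2⟩ := by
  choose a ha using fun i => Projectivization.exists_smul_eq_mk_rep ℂ (v i).1 (v i).2
  have h : (cf fun i => (prj 1 (v i)).rep) =
      ((a 0 : ℂ) * a 1 * a 2) • cf (fun i => (v i).1) := by
    rw [← cf_smul (fun i => (a i : ℂ)) (fun i => (v i).1)]
    congr 1
    funext i
    exact (ha i).symm
  refine (Projectivization.mk_eq_mk_iff' ℂ _ _ _ _).2 ⟨(a 0 : ℂ) * a 1 * a 2, ?_⟩
  exact h.symm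

theorem F_continuous : Continuous F := by
  have hq : IsOpenQuotientMap (Pi.map (fun _ : Fin 3 => prj 1)) :=
    IsOpenQuotientMap.piMap fun _ => prj_quot 1
  rw [hq.isQuotientMap.continuous_iff]
  have h : F ∘ Pi.map (fun _ : Fin 3 => prj 1) = fun v : Fin 3 → {v : Fin 2 → ℂ // v ≠ 0} =>
      prj 3 ⟨cf fun i => (v i).1, cf_ne fun i => (v i).2⟩ := by
    funext v
    exact F_prj v
  rw [h]
  refine (prj_continuous 3).comp (Continuous.subtype_mk ?_ _)
  exact continuous_cf.comp (continuous_pi fun i => continuous_subtype_val.comp (continuous_apply i))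

theorem F_surjective : Function.Surjective F := by
  intro p
  induction p using Projectivization.ind with
  | h c hc =>
    obtain ⟨v, hv, rfl⟩ := fac c hc
    exact ⟨fun i => prj 1 ⟨v i, hv i⟩, F_prj fun i => ⟨v i, hv i⟩⟩

theorem F_fiber (z z' : Fin 3 → CP 1) :
    F z = F z' ↔ ∃ g : Equiv.Perm (Fin 3), z' = z ∘ g := by
  constructor
  · intro h
    obtain ⟨a, ha⟩ := (Projectivization.mk_eq_mk_iff ℂ _ _ _ _).1 h.symm
    obtain ⟨g, hg⟩ := three (v := fun i => (z i).rep) (v' := fun i => (z' i).rep)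
      (fun i => (z i).rep_nonzero) (fun i => (z' i).rep_nonzero) a.ne_zero ha.symm
    refine ⟨g, ?_⟩
    funext i
    obtain ⟨c, hc, hc'⟩ := hg i
    have h1 : Projectivization.mk ℂ (z' i).rep (z' i).rep_nonzero =
        Projectivization.mk ℂ (z (g i)).rep (z (g i)).rep_nonzero :=
      (Projectivization.mk_eq_mk_iff' ℂ _ _ _ _).2 ⟨c, hc'.symm⟩
    rwa [Projectivization.mk_rep, Projectivization.mk_rep] at h1
  · rintro ⟨g, rfl⟩
    refine (Projectivization.mk_eq_mk_iff' ℂ _ _ _ _).2 ⟨1, ?_⟩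
    rw [one_smul]
    exact cf_perm (fun i => (z i).rep) g

end Sym3

theorem sym3 : ∃ f : C(Fin 3 → CP 1, CP 3), Function.Surjective f ∧
    ∀ z z', f z = f z' ↔ ∃ g : Equiv.Perm (Fin 3), z' = z ∘ g :=
  ⟨⟨Sym3.F, Sym3.F_continuous⟩, Sym3.F_surjective, Sym3.F_fiber⟩

end Pool.Agent.helper73.TC
end
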